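import Pool.Agent.Helper40.TWM.Stmts

/-!
Row MAS of the sheet TWM (MP_7a8f48_an): the masses in the hull for the power `p`.
-/

open MeasureTheory Filter Topology Finset
open scoped ComplexConjugate

namespace Pool.Agent.Helper74.TWM

open Pool.Agent.Helper98.TW (SA AM UF BF Sys IA Inc C0 CM ON Rk Mi Fr Wi)
open Pool.Agent.Helper16.AZ (E Op)
open Pool.Agent.Helper16.BZ (co Wk EE)
open Pool.Agent.Helper40.DZ (SK)
open Pool.Agent.Helper40.JZ (LM)
open Pool.Agent.Helper40.TWM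

section elem

variable {Ω : Type}

/-- iterates of invariant sigma algebras -/
theorem ia_iter [MeasurableSpace Ω] {μ : Measure Ω} {C : SA Ω} {R R' : Ω → Ω}
    (h : IA μ C R R') (n : ℕ) : IA μ C R^[n] R'^[n] := by
  refine ⟨h.1, fun f hf => ⟨?_, ?_⟩⟩
  · induction n generalizing f with
    | zero => exact hf
    | succ n ih =>
      have h1 := (h.2 _ (ih f hf)).1
      exact h1
  · induction n generalizing f with
    | zero => exact hf
    | succ n ih =>
      have h1 := (h.2 _ (ih f hf)).2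
      exact h1

variable {d : ℕ} (S : Ω → Ω) (φ : Ω → Op d) (c : Ω → E d)

theorem co_succ' (n : ℕ) (x : Ω) : co S φ (n + 1) x = co S φ n (S x) * φ x := by
  induction n with
  | zero => simp [co]
  | succ n ih =>
    calc co S φ (n + 2) x = φ (S^[n + 1] x) * co S φ (n + 1) x := rfl
      _ = φ (S^[n + 1] x) * (co S φ n (S x) * φ x) := by rw [ih]
      _ = (φ (S^[n] (S x)) * co S φ n (S x)) * φ x := by
        rw [Function.iterate_succ_apply, mul_assoc]
      _ = co S φ (n + 1) (S x) * φ x := rfl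

theorem Wk_succ' (n : ℕ) (x : Ω) :
    Wk S φ (n + 1) c x = star (φ x) (Wk S φ n c (S x)) := by
  unfold Wk
  rw [co_succ', star_mul, Function.iterate_succ_apply]
  rfl

theorem Wk_zero (x : Ω) : Wk S φ 0 c x = c x := by
  simp [Wk, co]

theorem Wk_add (m n : ℕ) (x : Ω) :
    Wk S φ (m + n) c x = tp S (fun x => star (φ x)) m x (Wk S φ n c (S^[m] x)) := by
  induction m generalizing x with
  | zero => simp [tp]
  | succ m ih =>
    rw [show m + 1 + n = m + n + 1 by ring, Wk_succ', ih, Function.iterate_succ_apply]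
    rfl

theorem Wi_eq (p h : ℕ) :
    Wi (tp S (fun x => star (φ x)) p) S^[p] h c = Wk S φ (p * h) c := by
  induction h with
  | zero =>
    funext x
    simp [Wi]
  | succ h ih =>
    funext x
    have h1 : Wi (tp S (fun x => star (φ x)) p) S^[p] (h + 1) c x =
        tp S (fun x => star (φ x)) p x
          (Wi (tp S (fun x => star (φ x)) p) S^[p] h c (S^[p] x)) := by
      unfold Wi
      rw [Function.iterate_succ_apply']
    rw [h1, ih, ← Wk_add, show p * (h + 1) = p + p * h by ring]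

theorem star_inner {u : Op d} (hu : u ∈ unitary (Op d)) (v w : E d) :
    (inner ℂ (star u v) (star u w) : ℂ) = inner ℂ v w := by
  rw [ContinuousLinearMap.star_eq_adjoint, ContinuousLinearMap.adjoint_inner_left,
    ← ContinuousLinearMap.star_eq_adjoint, ← mul_apply_eq_comp,
    Unitary.mul_star_self_of_mem hu, one_apply_eq_self]

theorem star_norm {u : Op d} (hu : u ∈ unitary (Op d)) (v : E d) : ‖star u v‖ = ‖v‖ := by
  have h1 := star_inner hu v v
  rw [inner_self_eq_norm_sq_to_K, inner_self_eq_norm_sq_to_K] at h1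
  have h2 : ‖star u v‖ ^ 2 = ‖v‖ ^ 2 := by exact_mod_cast h1
  exact (sq_eq_sq₀ (norm_nonneg _) (norm_nonneg _)).1 h2

theorem unit_norm {u : Op d} (hu : u ∈ unitary (Op d)) (v : E d) : ‖u v‖ = ‖v‖ := by
  have h1 := star_norm (Unitary.star_mem hu) v
  rwa [star_star] at h1

theorem star_unit {u : Op d} (hu : u ∈ unitary (Op d)) (v : E d) : star u (u v) = v := by
  rw [← mul_apply_eq_comp, Unitary.star_mul_self_of_mem hu,
    one_apply_eq_self]

end elem

section ops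

variable {Ω : Type} [MeasurableSpace Ω] {μ : Measure Ω}
variable {V : Type} [NormedAddCommGroup V] [InnerProductSpace ℂ V]

theorem th_comp {S : Ω → Ω} {θ : Ω → V →L[ℂ] V} (hS : MeasurePreserving S μ μ) (hθ : Th μ θ)
    (n : ℕ) : Th μ (tp S θ n) := by
  induction n with
  | zero => exact ⟨aestronglyMeasurable_const, fun x v => by simp [tp]⟩
  | succ n ih =>
    refine ⟨?_, fun x v => ?_⟩
    · have h1 : AEStronglyMeasurable (fun x => tp S θ n (S x)) μ :=
        ih.ms.comp_measurePreserving hS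
      exact hθ.ms.mul h1
    · change ‖(θ x * tp S θ n (S x)) v‖ = ‖v‖
      rw [mul_apply_eq_comp, hθ.iso, ih.iso]

theorem inner_iso {u : V →L[ℂ] V} (hu : ∀ v, ‖u v‖ = ‖v‖) (v w : V) :
    (inner ℂ (u v) (u w) : ℂ) = inner ℂ v w := by
  let L : V →ₗᵢ[ℂ] V := ⟨u.toLinearMap, hu⟩
  exact L.inner_map_map v w

/-- the operator on `L²` -/
theorem exists_W [IsProbabilityMeasure μ] {S : Ω → Ω} {θ : Ω → V →L[ℂ] V}
    (hS : MeasurePreserving S μ μ) (hθ : Th μ θ) (G : Lp V 2 μ) :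
    ∃ G' : Lp V 2 μ, ∀ᵐ x ∂μ, G' x = θ x (G (S x)) := by
  have h1 : AEStronglyMeasurable (fun x => G (S x)) μ :=
    (Lp.aestronglyMeasurable G).comp_measurePreserving hS
  have h2 : AEStronglyMeasurable (fun x => θ x (G (S x))) μ :=
    (ContinuousLinearMap.id ℂ (V →L[ℂ] V)).aestronglyMeasurable_comp₂ hθ.ms h1
  have h3 : MemLp (fun x => G (S x)) 2 μ := (Lp.memLp G).comp_measurePreserving hS
  have h4 : MemLp (fun x => θ x (G (S x))) 2 μ :=
    h3.congr_norm h2 (Eventually.of_forall fun x => (hθ.iso x _).symm)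
  exact ⟨h4.toLp _, h4.coeFn_toLp⟩

theorem inner_W [IsProbabilityMeasure μ] {S : Ω → Ω} {θ : Ω → V →L[ℂ] V}
    (hS : MeasurePreserving S μ μ) (hθ : Th μ θ) {G G' H H' : Lp V 2 μ}
    (hG : ∀ᵐ x ∂μ, G' x = θ x (G (S x))) (hH : ∀ᵐ x ∂μ, H' x = θ x (H (S x))) :
    (inner ℂ G' H' : ℂ) = inner ℂ G H := by
  rw [L2.inner_def, L2.inner_def]
  have h1 : ∫ x, (inner ℂ (G' x) (H' x) : ℂ) ∂μ = ∫ x, (inner ℂ (G (S x)) (H (S x)) : ℂ) ∂μ := by
    refine integral_congr_ae ?_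
    filter_upwards [hG, hH] with x h1 h2
    rw [h1, h2, inner_iso (hθ.iso x)]
  rw [h1]
  have h2 : AEStronglyMeasurable (fun x => (inner ℂ (G x) (H x) : ℂ)) (μ.map S) := by
    rw [hS.map_eq]
    exact (Lp.aestronglyMeasurable G).inner (Lp.aestronglyMeasurable H)
  have h3 := integral_map hS.measurable.aemeasurable h2
  rw [hS.map_eq] at h3
  exact h3.symm

end ops

section hil

variable {H : Type*} [NormedAddCommGroup H] [InnerProductSpace ℂ H] [CompleteSpace H]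

theorem hil (Ψ : H →L[ℂ] H) (hΨ : IsSelfAdjoint Ψ)
    (hp : ∀ G, 0 ≤ RCLike.re (inner ℂ (Ψ G) G : ℂ)) (K : Submodule ℂ H)
    (hK : IsClosed (K : Set H)) (W : H → H) (hadd : ∀ x y, W (x + y) = W x + W y)
    (hin : ∀ x y, (inner ℂ (W x) (W y) : ℂ) = inner ℂ x y) (hs : ∀ z, ∃ z', W z' = z)
    (h1 : ∀ z ∈ K, W z ∈ K) (h2 : ∀ z, W z ∈ K → z ∈ K) (h3 : ∀ z ∈ K, Ψ (W z) = W (Ψ z))
    (h4 : ∀ z ∈ K, Ψ z ∈ K) (s : ℝ) (hs0 : 0 ≤ s)
    (h5 : ∀ G, (∀ G' ∈ K, (inner ℂ G' G : ℂ) = 0) →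
      RCLike.re (inner ℂ (Ψ G) G : ℂ) ≤ s * ‖G‖ ^ 2) (u : H) :
    ∃ a : ℝ, RCLike.re (inner ℂ (Ψ u) u : ℂ) ≤ a + s * ‖u‖ ^ 2 ∧
      ∀ j : ℕ, a ≤ RCLike.re (inner ℂ (Ψ (W^[j] u)) (W^[j] u) : ℂ) := by
  have : CompleteSpace K := hK.completeSpace_coe
  obtain ⟨x, hx, y, hy, hu⟩ := K.exists_add_mem_mem_orthogonal u
  have hy' : ∀ G' ∈ K, (inner ℂ G' y : ℂ) = 0 := fun G' hG' => hy G' hG'
  -- the form is additive on orthogonal sums
  have hq : ∀ a b : H, a ∈ K → (∀ G' ∈ K, (inner ℂ G' b : ℂ) = 0) →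
      RCLike.re (inner ℂ (Ψ (a + b)) (a + b) : ℂ) =
        RCLike.re (inner ℂ (Ψ a) a : ℂ) + RCLike.re (inner ℂ (Ψ b) b : ℂ) := by
    intro a b ha hb
    have e1 : (inner ℂ (Ψ a) b : ℂ) = 0 := hb _ (h4 a ha)
    have e2 : (inner ℂ (Ψ b) a : ℂ) = 0 := by
      have e3 : (inner ℂ (Ψ b) a : ℂ) = inner ℂ b (Ψ a) := hΨ.isSymmetric b a
      rw [e3, ← inner_conj_symm, e1, map_zero]
    rw [map_add, inner_add_left, inner_add_right, inner_add_right, e1, e2]
    simp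
  refine ⟨RCLike.re (inner ℂ (Ψ x) x : ℂ), ?_, fun j => ?_⟩
  · rw [hu, hq x y hx hy']
    have e1 : ‖x + y‖ ^ 2 = ‖x‖ ^ 2 + ‖y‖ ^ 2 := by
      have e2 := norm_add_sq_eq_norm_sq_add_norm_sq_of_inner_eq_zero x y (hy' x hx)
      nlinarith [e2]
    have e3 := h5 y hy'
    have e4 : s * ‖y‖ ^ 2 ≤ s * ‖x + y‖ ^ 2 := by
      rw [e1]
      have := sq_nonneg ‖x‖
      nlinarith
    linarith
  · have hWx : ∀ j : ℕ, W^[j] x ∈ K := by
      intro j
      induction j with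
      | zero => exact hx
      | succ j ih => rw [Function.iterate_succ_apply']; exact h1 _ ih
    have hWy : ∀ j : ℕ, ∀ G' ∈ K, (inner ℂ G' (W^[j] y) : ℂ) = 0 := by
      intro j
      induction j with
      | zero => exact hy'
      | succ j ih =>
        intro G' hG'
        obtain ⟨z, rfl⟩ := hs G'
        rw [Function.iterate_succ_apply', hin]
        exact ih z (h2 z hG')
    have hWa : ∀ j : ℕ, RCLike.re (inner ℂ (Ψ (W^[j] x)) (W^[j] x) : ℂ) =
        RCLike.re (inner ℂ (Ψ x) x : ℂ) := by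
      intro j
      induction j with
      | zero => rfl
      | succ j ih => rw [Function.iterate_succ_apply', h3 _ (hWx j), hin, ih]
    have hWu : ∀ j : ℕ, W^[j] u = W^[j] x + W^[j] y := by
      intro j
      induction j with
      | zero => exact hu
      | succ j ih => rw [Function.iterate_succ_apply', ih, hadd, Function.iterate_succ_apply',
          Function.iterate_succ_apply']
    rw [hWu j, hq _ _ (hWx j) (hWy j), hWa j]
    have := hp (W^[j] y)
    linarith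

end hil

section avg

theorem sum_mul_range (b : ℕ → ℝ) (p H : ℕ) :
    ∑ n ∈ range (p * H), b n = ∑ h ∈ range H, ∑ i ∈ range p, b (p * h + i) := by
  induction H with
  | zero => simp
  | succ H ih => rw [Nat.mul_succ, sum_range_succ, ← ih, ← Finset.sum_range_add]

theorem stat {N : ℕ → ℕ → ℝ} (hst : ∀ k k', N (k + 1) (k' + 1) = N k k') (j k : ℕ) :
    N j (k + j) = N 0 k := by
  induction j with
  | zero => rfl
  | succ j ih => rw [← add_assoc, hst, ih]

theorem avg {N : ℕ → ℕ → ℝ} (hst : ∀ k k', N (k + 1) (k' + 1) = N k k') {L : ℝ}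
    (hL : Tendsto (fun H : ℕ => (∑ h ∈ range H, N 0 (1 * h)) / (H : ℝ)) atTop (𝓝 L)) (p : ℕ)
    (hp : 1 ≤ p) :
    Tendsto (fun H : ℕ => ∑ j ∈ range p, (∑ h ∈ range H, N j (p * h)) / (H : ℝ)) atTop
      (𝓝 ((p : ℝ) * L)) := by
  rw [← tendsto_add_atTop_iff_nat 1]
  -- the sums
  have h1 : ∀ H : ℕ, ∑ j ∈ range p, ∑ h ∈ range (H + 1), N j (p * h) =
      (∑ n ∈ range (p * H + 1), N 0 (1 * n)) + (∑ j ∈ range p, N j 0 - N 0 0) := by
    intro H
    have e1 : ∀ j ∈ range p, ∑ h ∈ range (H + 1), N j (p * h) =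
        (∑ h ∈ range H, N 0 (p * h + (p - 1 - j) + 1)) + N j 0 := by
      intro j hj
      rw [sum_range_succ']
      congr 1
      refine sum_congr rfl fun h _ => ?_
      rw [mem_range] at hj
      rw [← stat hst j]
      congr 1
      have e2 : p * (h + 1) = p * h + p := by ring
      omega
    rw [sum_congr rfl e1, sum_add_distrib, sum_comm, sum_range_succ' (fun n => N 0 (1 * n))]
    have e3 : ∑ n ∈ range (p * H), N 0 (1 * (n + 1)) =
        ∑ h ∈ range H, ∑ i ∈ range p, N 0 (p * h + (p - 1 - i) + 1) := by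
      rw [sum_mul_range]
      refine sum_congr rfl fun h _ => ?_
      rw [← Finset.sum_range_reflect]
      refine sum_congr rfl fun i _ => ?_
      rw [one_mul]
    rw [e3]
    simp only [mul_zero]
    ring
  have h2 : ∀ H : ℕ, ∑ j ∈ range p, (∑ h ∈ range (H + 1), N j (p * h)) / ((H + 1 : ℕ) : ℝ) =
      ((∑ n ∈ range (p * H + 1), N 0 (1 * n)) / ((p * H + 1 : ℕ) : ℝ)) *
        ((p : ℝ) - ((p : ℝ) - 1) * (1 / ((H : ℝ) + 1))) +
      (∑ j ∈ range p, N j 0 - N 0 0) * (1 / ((H : ℝ) + 1)) := by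
    intro H
    rw [← sum_div, h1]
    have e1 : ((H : ℝ) + 1) ≠ 0 := by positivity
    have e2 : ((p : ℝ) * H + 1) ≠ 0 := by positivity
    push_cast
    field_simp
    ring
  simp only [h2]
  have h3 : Tendsto (fun H : ℕ => p * H + 1) atTop atTop := by
    refine tendsto_atTop_mono (fun H => ?_) tendsto_id
    have : H * 1 ≤ H * p := Nat.mul_le_mul_left H hp
    simp only [id_eq]
    nlinarith
  have h4 := hL.comp h3
  have h5 : Tendsto (fun H : ℕ => 1 / ((H : ℝ) + 1)) atTop (𝓝 0) :=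
    tendsto_one_div_add_atTop_nhds_zero_nat
  have h6 : Tendsto (fun H : ℕ => (p : ℝ) - ((p : ℝ) - 1) * (1 / ((H : ℝ) + 1))) atTop
      (𝓝 ((p : ℝ) - ((p : ℝ) - 1) * 0)) := tendsto_const_nhds.sub (h5.const_mul _)
  have h7 := (h4.mul h6).add (h5.const_mul (∑ j ∈ range p, N j 0 - N 0 0))
  have h8 : L * ((p : ℝ) - ((p : ℝ) - 1) * 0) + (∑ j ∈ range p, N j 0 - N 0 0) * 0 =
      (p : ℝ) * L := by ring
  rw [h8] at h7
  exact h7

end avg

/-- MAS -/
theorem st_MAS (hPU : ST_MPU) (hPE : ST_MPE) (hIV : ST_MIV) (hCM : ST_MCM) (hCE : ST_MCE)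
    (hSK : ST_MSK) : ST_MAS := by
  intro Ω _ _ μ _ S S' C d φ c p q R₀ hSt hφm hφu hcm hcb hp hq hpq hR1 hRq hHQ hZ
  obtain ⟨B, hB⟩ := hcb
  obtain ⟨𝓤, h𝓤⟩ : ∃ 𝓤 : Ultrafilter ℕ, (𝓤 : Filter ℕ) ≤ atTop :=
    ⟨Ultrafilter.of atTop, Ultrafilter.of_le atTop⟩
  -- the system and the cocycle
  have hsys : Sys μ S S' := by
    have := hSt.sys 1
    simpa using this
  have hS : MeasurePreserving S μ μ := hsys.mp
  have hS' : MeasurePreserving S' μ μ := hsys.mp'
  have hθ : Th μ (fun x => star (φ x)) :=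
    ⟨continuous_star.comp_aestronglyMeasurable hφm, fun x v => star_norm (hφu x) v⟩
  have hφT : Th μ (fun x => φ (S' x)) :=
    ⟨hφm.comp_measurePreserving hS', fun x v => unit_norm (hφu _) v⟩
  have hθp : Th μ (tp S (fun x => star (φ x)) p) := th_comp hS hθ p
  have hIA : IA μ C S^[p] S'^[p] := ia_iter hHQ.ia p
  -- the function `c` in `L²`
  have hcL : MemLp c 2 μ := MemLp.of_bound hcm B (Eventually.of_forall hB)
  set u : Lp (E d) 2 μ := hcL.toLp c with hu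
  have hcu : ∀ᵐ x ∂μ, u x = c x := hcL.coeFn_toLp
  set A : ℝ := ∫ x, ‖c x‖ ^ 2 ∂μ with hA
  have hA0 : 0 ≤ A := integral_nonneg fun x => sq_nonneg _
  have huA : ‖u‖ ^ 2 = A := by
    have e1 : (inner ℂ u u : ℂ) = ((∫ x, ‖c x‖ ^ 2 ∂μ : ℝ) : ℂ) := by
      rw [L2.inner_def, ← integral_complex_ofReal]
      refine integral_congr_ae ?_
      filter_upwards [hcu] with x hx
      rw [hx, inner_self_eq_norm_sq_to_K]
      push_cast
      rfl
    rw [inner_self_eq_norm_sq_to_K] at e1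
    have e2 : ((‖u‖ ^ 2 : ℝ) : ℂ) = ((∫ x, ‖c x‖ ^ 2 ∂μ : ℝ) : ℂ) := by
      rw [← e1]
      push_cast
      rfl
    exact Complex.ofReal_injective e2
  -- the operator
  obtain ⟨Ψ, hΨ, hpos, hCq, hlim, htr, -⟩ := hPU Ω μ (E d) S^[p] S'^[p]
    (tp S (fun x => star (φ x)) p) C c B 𝓤 h𝓤 (hSt.sys p) hIA hθp hcm hB
  -- the parameter `s`
  have hR0 : (0 : ℝ) < R₀ := by exact_mod_cast hR1
  obtain ⟨s, hs, hsA, hsR⟩ : ∃ s : ℝ, 0 < s ∧ s * A = A ^ 2 / R₀ ∧ A / s < R₀ + 1 := by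
    rcases hA0.eq_or_lt with h0 | h0
    · refine ⟨1, one_pos, ?_, ?_⟩
      · rw [← h0]; simp
      · rw [← h0]; simp; linarith
    · refine ⟨A / R₀, by positivity, ?_, ?_⟩
      · ring
      · rw [div_div_cancel₀ h0.ne']; linarith
  obtain ⟨K, hK, hKr, hKΨ, -, hKo, -⟩ := hPE Ω μ (E d) S^[p] S'^[p]
    (tp S (fun x => star (φ x)) p) C Ψ A s (hSt.sys p) hIA hθp hΨ hpos hCq htr hs
  have hKR : Rk μ C K R₀ := hKr R₀ hsR
  obtain ⟨hKS, hKinv⟩ := hIV Ω μ (E d) S S' (fun x => star (φ x)) C p q R₀ K hSt hθ hp hq hpq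
    hRq hHQ hZ hK hKR
  have hcomm := hCM Ω μ (E d) S S' (fun x => star (φ x)) C p q R₀ K Ψ hSt hθ hp hq hpq
    hRq hHQ hZ hK hKR hCq
  -- the operator `W`
  choose W hW using fun G : Lp (E d) 2 μ => exists_W hS hθ G
  have hWuniq : ∀ G G' : Lp (E d) 2 μ, (∀ᵐ x ∂μ, G' x = star (φ x) (G (S x))) → W G = G' := by
    intro G G' h
    refine Lp.ext ?_
    filter_upwards [hW G, h] with x h1 h2
    rw [h1, h2]
  have hWadd : ∀ x y, W (x + y) = W x + W y := by
    intro G H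
    refine hWuniq _ _ ?_
    have e1 := hS.quasiMeasurePreserving.ae (Lp.coeFn_add G H)
    filter_upwards [hW G, hW H, Lp.coeFn_add (W G) (W H), e1] with x h1 h2 h3 h4
    rw [h3, Pi.add_apply, h1, h2, h4, Pi.add_apply, map_add]
  have hWin : ∀ x y, (inner ℂ (W x) (W y) : ℂ) = inner ℂ x y := fun G H =>
    inner_W hS hθ (hW G) (hW H)
  have hWs : ∀ z, ∃ z', W z' = z := by
    intro G
    obtain ⟨G', hG'⟩ := exists_W hS' hφT G
    refine ⟨G', hWuniq _ _ ?_⟩
    have e1 := hS.quasiMeasurePreserving.ae hG'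
    filter_upwards [e1, hsys.l] with x h1 h2
    rw [h1, h2, star_unit (hφu x)]
  obtain ⟨a, ha1, ha2⟩ := hil Ψ hΨ hpos K hK.closed W hWadd hWin hWs
    (fun z hz => hKS.comp z hz (W z) (hW z)) (fun z hz => hKinv (W z) z hz (hW z))
    (fun z hz => (hWuniq _ _ (hcomm z (W z) hz (hW z))).symm) hKΨ s hs.le hKo u
  -- the iterates of `c`
  have hWj : ∀ j : ℕ, ∀ᵐ x ∂μ, (W^[j] u) x = Wk S φ j c x := by
    intro j
    induction j with
    | zero =>
      filter_upwards [hcu] with x hx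
      rw [Wk_zero]
      exact hx
    | succ j ih =>
      rw [Function.iterate_succ_apply']
      have e1 := hS.quasiMeasurePreserving.ae ih
      filter_upwards [hW (W^[j] u), e1] with x h1 h2
      rw [h1, h2, Wk_succ']
  have hlimj : ∀ j : ℕ, Tendsto (fun H : ℕ => (∑ h ∈ range H, NC μ C S φ c j (p * h)) / (H : ℝ))
      𝓤 (𝓝 (RCLike.re (inner ℂ (Ψ (W^[j] u)) (W^[j] u) : ℂ))) := by
    intro j
    have e1 := hlim (W^[j] u)
    refine e1.congr fun H => ?_
    congr 1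
    refine sum_congr rfl fun h _ => ?_
    unfold NC
    have e2 : (fun x => (inner ℂ ((W^[j] u) x)
        (Wi (tp S (fun x => star (φ x)) p) S^[p] h c x) : ℂ)) =ᵐ[μ] EE S φ c j (p * h) := by
      filter_upwards [hWj j] with x hx
      rw [hx, Wi_eq]
      rfl
    have e3 := condExp_congr_ae (m := C) e2
    refine integral_congr_ae ?_
    filter_upwards [e3] with x hx
    rw [hx]
  -- the masses
  have hN : SK (NC μ C S φ c) := hSK Ω μ S S' C d φ c hsys hHQ.ia hφm hφu hcm ⟨B, hB⟩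
  have hp1 : 1 ≤ p := hp.one_lt.le
  have hLp : LM (NC μ C S φ c) p ≤ a + s * ‖u‖ ^ 2 := by
    have e1 := (hCE _ hN p hp1).mono_left h𝓤
    have e2 := tendsto_nhds_unique e1 (hlimj 0)
    rw [e2]
    exact ha1
  have hL1 : a ≤ LM (NC μ C S φ c) 1 := by
    have e1 := (avg hN.2 (hCE _ hN 1 le_rfl) p hp1).mono_left h𝓤
    have e2 : Tendsto (fun H : ℕ => ∑ j ∈ range p,
        (∑ h ∈ range H, NC μ C S φ c j (p * h)) / (H : ℝ)) 𝓤
        (𝓝 (∑ j ∈ range p, RCLike.re (inner ℂ (Ψ (W^[j] u)) (W^[j] u) : ℂ))) :=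
      tendsto_finsetSum _ fun j _ => hlimj j
    have e3 := tendsto_nhds_unique e1 e2
    have e4 : (p : ℝ) * a ≤ ∑ j ∈ range p, RCLike.re (inner ℂ (Ψ (W^[j] u)) (W^[j] u) : ℂ) := by
      have e5 : ∑ _j ∈ range p, a ≤
          ∑ j ∈ range p, RCLike.re (inner ℂ (Ψ (W^[j] u)) (W^[j] u) : ℂ) :=
        sum_le_sum fun j _ => ha2 j
      simpa using e5
    rw [← e3] at e4
    have hp0 : (0 : ℝ) < p := by exact_mod_cast hp.pos
    exact le_of_mul_le_mul_left e4 hp0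
  calc LM (NC μ C S φ c) p ≤ a + s * ‖u‖ ^ 2 := hLp
    _ = a + A ^ 2 / R₀ := by rw [huA, hsA]
    _ ≤ LM (NC μ C S φ c) 1 + A ^ 2 / R₀ := by linarith

end Pool.Agent.Helper74.TWM
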