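import Pool.Agent.Helper72.TWM.MIV
import Pool.Agent.Helper74.TWM.MAS

/-!
Row MCM of the sheet TWM (MP_7a8f48_an): operators which commute with the power `p` commute on
modules of small rank.
-/

open MeasureTheory Filter Topology Finset
open scoped ComplexConjugate

namespace Pool.Agent.Helper74.TWM

open Pool.Agent.Helper98.TW
open Pool.Agent.Helper40.TWM
open Pool.Agent.Helper72.TWR (IE ie_of_mem mem_of_ie IE.sum ml_smul int_inner ce_inner mem_of_comb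
  ind_of_mem ind_of_not ind_le cec_iter)
open Pool.Agent.Helper72.TWM (comb_am th_tp cpl mem_cpl cpl_cm)
open Pool.Agent.Helper73.TWR (ind am_ind)

variable {Ω : Type} [m0 : MeasurableSpace Ω]
variable {V : Type} [NormedAddCommGroup V] [InnerProductSpace ℂ V]
variable {μ : Measure Ω}

/-- linearity over `C` -/
def CL (μ : Measure Ω) (C : SA Ω) (Ψ : Lp V 2 μ →L[ℂ] Lp V 2 μ) : Prop :=
  ∀ (c : Ω → ℂ) (G G' : Lp V 2 μ), AM μ C c → (∃ B : ℝ, ∀ᵐ x ∂μ, ‖c x‖ ≤ B) →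
    (∀ᵐ x ∂μ, G' x = c x • G x) → ∀ᵐ x ∂μ, (Ψ G') x = c x • (Ψ G) x

theorem clin {C : SA Ω} {Ψ : Lp V 2 μ →L[ℂ] Lp V 2 μ} (hΨ : CL μ C Ψ) (hle : Lm C) {m : ℕ}
    (w : Fin m → Lp V 2 μ) (c : Fin m → Ω → ℂ) (hc : ∀ a, AM μ C (c a))
    (hcb : ∀ a, ∃ B : ℝ, ∀ᵐ x ∂μ, ‖c a x‖ ≤ B) {G : Lp V 2 μ}
    (hG : ∀ᵐ x ∂μ, G x = ∑ a, c a x • w a x) :
    ∀ᵐ x ∂μ, (Ψ G) x = ∑ a, c a x • (Ψ (w a)) x := by
  have h1 : ∀ a, MemLp (fun x => c a x • w a x) 2 μ := fun a =>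
    ml_smul hle (Lp.memLp (w a)) (hc a) (hcb a)
  have h2 : G = ∑ a, (h1 a).toLp := by
    refine Lp.ext ?_
    filter_upwards [hG, Lp.coeFn_finsetSum Finset.univ fun a => (h1 a).toLp,
      ae_all_iff.2 fun a => (h1 a).coeFn_toLp] with x hx hx2 hx3
    rw [hx, hx2, Finset.sum_apply]
    exact Finset.sum_congr rfl fun a _ => (hx3 a).symm
  have h3 : ∀ a, ∀ᵐ x ∂μ, (Ψ (h1 a).toLp) x = c a x • (Ψ (w a)) x := fun a =>
    hΨ (c a) (w a) _ (hc a) (hcb a) (h1 a).coeFn_toLp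
  rw [h2, map_sum]
  filter_upwards [Lp.coeFn_finsetSum Finset.univ fun a => Ψ (h1 a).toLp,
    ae_all_iff.2 h3] with x hx hx2
  rw [hx, Finset.sum_apply]
  exact Finset.sum_congr rfl fun a _ => hx2 a

/-- `l • 1 + Ψ` is linear over `C` -/
theorem CL.add_smul {C : SA Ω} {Ψ : Lp V 2 μ →L[ℂ] Lp V 2 μ} (hΨ : CL μ C Ψ) (l : ℂ) :
    CL μ C (l • (1 : Lp V 2 μ →L[ℂ] Lp V 2 μ) + Ψ) := by
  intro c G G' hc hcb hG
  have h0 : ∀ F : Lp V 2 μ, ∀ᵐ x ∂μ, ((l • (1 : Lp V 2 μ →L[ℂ] Lp V 2 μ) + Ψ) F) x =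
      l • F x + (Ψ F) x := by
    intro F
    have e1 : (l • (1 : Lp V 2 μ →L[ℂ] Lp V 2 μ) + Ψ) F = l • F + Ψ F := rfl
    rw [e1]
    filter_upwards [Lp.coeFn_add (l • F) (Ψ F), Lp.coeFn_smul l F] with x hx hx2
    rw [hx, Pi.add_apply, hx2, Pi.smul_apply]
  filter_upwards [h0 G, h0 G', hΨ c G G' hc hcb hG, hG] with x h1 h2 h3 h4
  rw [h1, h2, h3, h4, smul_add, smul_comm]

/-- the orthogonal complement of a `C`-module -/
theorem orth_c0 [CompleteSpace V] {C : SA Ω} (hle : Lm C) {E : Submodule ℂ (Lp V 2 μ)}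
    (hE : C0 μ C E) : C0 μ C Eᗮ := by
  refine ⟨Submodule.isClosed_orthogonal E, fun G hG c hc hcb G' hG' => ?_⟩
  rw [Submodule.mem_orthogonal]
  intro u hu
  have hc' : AM μ C (fun x => conj (c x)) := am_conj hc
  have hcb' : ∃ B : ℝ, ∀ᵐ x ∂μ, ‖conj (c x)‖ ≤ B := by
    obtain ⟨B, hB⟩ := hcb
    refine ⟨B, ?_⟩
    filter_upwards [hB] with x hx
    rwa [RCLike.norm_conj]
  have hm := ml_smul hle (Lp.memLp u) hc' hcb'
  have h1 : hm.toLp ∈ E := hE.mul u hu _ hc' hcb' _ hm.coeFn_toLp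
  have h2 := (Submodule.mem_orthogonal E G).1 hG _ h1
  rw [← h2, L2.inner_def, L2.inner_def]
  refine integral_congr_ae ?_
  filter_upwards [hG', hm.coeFn_toLp] with x hx hx2
  rw [hx, hx2, inner_smul_left, inner_smul_right, RCLike.conj_conj]

/-- modules contained in a `C`-module if the frame is -/
theorem fr_le {C : SA Ω} (hle : Lm C) {R : Ω → Ω} {θ : Ω → V →L[ℂ] V}
    {M E : Submodule ℂ (Lp V 2 μ)} {m : ℕ} {e : Fin m → Lp V 2 μ}
    {ρ : Ω → Matrix (Fin m) (Fin m) ℂ} (hF : Fr μ C R θ M e ρ) (hE : C0 μ C E)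
    (he : ∀ a, e a ∈ E) : M ≤ E := fun G hG =>
  comb_am hle hE e he _ (fun _ => stronglyMeasurable_condExp.aestronglyMeasurable) (hF.span G hG)

/-- the preimage of a `C`-module under a `C`-linear operator -/
theorem comap_c0 {C : SA Ω} {Ψ : Lp V 2 μ →L[ℂ] Lp V 2 μ} (hΨ : CL μ C Ψ)
    {E : Submodule ℂ (Lp V 2 μ)} (hE : C0 μ C E) :
    C0 μ C (E.comap (Ψ : Lp V 2 μ →ₗ[ℂ] Lp V 2 μ)) := by
  refine ⟨hE.closed.preimage Ψ.continuous, fun G hG c hc hcb G' hG' => ?_⟩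
  exact hE.mul (Ψ G) hG c hc hcb (Ψ G') (hΨ c G G' hc hcb hG')

/-- the matrix of an operator in a frame is equivariant -/
theorem alpha_eq [IsProbabilityMeasure μ] {C : SA Ω} {R R' : Ω → Ω} {θ : Ω → V →L[ℂ] V}
    {Ψ : Lp V 2 μ →L[ℂ] Lp V 2 μ} {M : Submodule ℂ (Lp V 2 μ)} {m : ℕ}
    {e : Fin m → Lp V 2 μ} {ρ : Ω → Matrix (Fin m) (Fin m) ℂ} (hR : Sys μ R R')
    (hI : IA μ C R R') (hθ : Th μ θ) (hF : Fr μ C R θ M e ρ) (hΨ : Cq μ C R θ Ψ) :
    ∀ᵐ x ∂μ, (Matrix.of fun a b =>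
        (μ[fun y => (inner ℂ (e b y) ((Ψ (e a)) y) : ℂ)|C]) (R x)) =
      ρ x * (Matrix.of fun a b => (μ[fun y => (inner ℂ (e b y) ((Ψ (e a)) y) : ℂ)|C]) x) *
        (ρ x).conjTranspose := by
  have hle : Lm C := hI.1
  have hρb : ∀ a b, ∃ B : ℝ, ∀ᵐ x ∂μ, ‖ρ x a b‖ ≤ B := fun a b => by
    refine ⟨1, ?_⟩
    filter_upwards [hF.unit] with x hx
    exact entry_norm_bound_of_unitary hx a b
  -- the images of the elements of the frame
  have hW : ∀ a, ∃ G' : Lp V 2 μ, ∀ᵐ x ∂μ, G' x = θ x (e a (R x)) := fun a =>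
    exists_W hR.mp hθ (e a)
  choose w hw using hW
  have h1 : ∀ a, ∀ᵐ x ∂μ, θ x ((Ψ (e a)) (R x)) = ∑ b, ρ x a b • (Ψ (e b)) x := by
    intro a
    have e1 : ∀ᵐ x ∂μ, w a x = ∑ b, ρ x a b • e b x := by
      filter_upwards [hw a, hF.comp a] with x hx hx2
      rw [hx, hx2]
    have e2 := clin hΨ.c hle e (fun b x => ρ x a b) (fun b => hF.meas a b) (fun b => hρb a b) e1
    filter_upwards [e2, hΨ.w (e a) (w a) (hw a)] with x hx hx2
    rw [← hx2, hx]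
  -- entries
  have h2 : ∀ a b, μ[fun x => (inner ℂ (e b (R x)) ((Ψ (e a)) (R x)) : ℂ)|C] =ᵐ[μ] fun x =>
      ∑ b', ∑ a', conj (ρ x b b') * ρ x a a' *
        (μ[fun y => (inner ℂ (e b' y) ((Ψ (e a')) y) : ℂ)|C]) x := by
    intro a b
    have hml : ∀ (a' : Fin m) (F : Lp V 2 μ) (a : Fin m),
        MemLp (fun x => ρ x a a' • F x) 2 μ := fun a' F a =>
      ml_smul hle (Lp.memLp F) (hF.meas a a') (hρb a a')
    have e1 : (fun x => (inner ℂ (e b (R x)) ((Ψ (e a)) (R x)) : ℂ)) =ᵐ[μ]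
        ∑ b', ∑ a', fun x =>
          (inner ℂ (ρ x b b' • e b' x) (ρ x a a' • (Ψ (e a')) x) : ℂ) := by
      filter_upwards [hF.comp b, h1 a] with x hx hx2
      rw [← inner_iso (hθ.iso x), hx, hx2]
      simp only [Finset.sum_apply, sum_inner, inner_sum]
      exact Finset.sum_comm
    refine (condExp_congr_ae e1).trans ?_
    have hint : ∀ b' a', Integrable (fun x =>
        (inner ℂ (ρ x b b' • e b' x) (ρ x a a' • (Ψ (e a')) x) : ℂ)) μ := fun b' a' =>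
      int_inner (hml b' (e b') b) (hml a' (Ψ (e a')) a)
    have e2 := condExp_finsetSum (m := C) (μ := μ) (s := Finset.univ)
      (f := fun b' => ∑ a', fun x =>
        (inner ℂ (ρ x b b' • e b' x) (ρ x a a' • (Ψ (e a')) x) : ℂ))
      (fun b' _ => integrable_finsetSum' _ fun a' _ => hint b' a')
    have e3 : ∀ b', μ[∑ a', fun x =>
        (inner ℂ (ρ x b b' • e b' x) (ρ x a a' • (Ψ (e a')) x) : ℂ)|C] =ᵐ[μ]
        ∑ a', μ[fun x => (inner ℂ (ρ x b b' • e b' x) (ρ x a a' • (Ψ (e a')) x) : ℂ)|C] :=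
      fun b' => condExp_finsetSum (fun a' _ => hint b' a') C
    have e4 : ∀ b' a', μ[fun x =>
        (inner ℂ (ρ x b b' • e b' x) (ρ x a a' • (Ψ (e a')) x) : ℂ)|C] =ᵐ[μ] fun x =>
        conj (ρ x b b') * ρ x a a' *
          (μ[fun y => (inner ℂ (e b' y) ((Ψ (e a')) y) : ℂ)|C]) x := fun b' a' =>
      ce_inner hle (Lp.memLp (e b')) (Lp.memLp (Ψ (e a'))) (hF.meas b b') (hF.meas a a')
        (hρb b b') (hρb a a')
    filter_upwards [e2, ae_all_iff.2 e3, ae_all_iff.2 fun b' => ae_all_iff.2 (e4 b')] with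
      x hx hx3 hx4
    rw [hx, Finset.sum_apply]
    refine Finset.sum_congr rfl fun b' _ => ?_
    rw [hx3 b', Finset.sum_apply]
    exact Finset.sum_congr rfl fun a' _ => hx4 b' a'
  have h3 : ∀ a b, ∀ᵐ x ∂μ, (μ[fun y => (inner ℂ (e b y) ((Ψ (e a)) y) : ℂ)|C]) (R x) =
      ∑ b', ∑ a', conj (ρ x b b') * ρ x a a' *
        (μ[fun y => (inner ℂ (e b' y) ((Ψ (e a')) y) : ℂ)|C]) x := by
    intro a b
    have e1 := cec_iter (C := C) hR hI
      (int_inner (Lp.memLp (e b)) (Lp.memLp (Ψ (e a)))) 1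
    filter_upwards [e1, h2 a b] with x hx hx2
    rw [Function.iterate_one] at hx
    rw [← hx, hx2]
  filter_upwards [ae_all_iff.2 fun a => ae_all_iff.2 (h3 a)] with x hx
  ext a b
  rw [Matrix.of_apply, hx a b, Matrix.mul_apply]
  refine Finset.sum_congr rfl fun b' _ => ?_
  rw [Matrix.mul_apply, Finset.sum_mul, Matrix.conjTranspose_apply]
  refine Finset.sum_congr rfl fun a' _ => ?_
  rw [Matrix.of_apply, RCLike.star_def]
  ring

/-- the rank of the image of a module with a frame -/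
theorem map_rk [IsProbabilityMeasure μ] {C : SA Ω} (hle : Lm C) {R : Ω → Ω}
    {θ : Ω → V →L[ℂ] V} {Λ : Lp V 2 μ →L[ℂ] Lp V 2 μ} (hΛ : CL μ C Λ)
    {M : Submodule ℂ (Lp V 2 μ)} {m : ℕ} {e : Fin m → Lp V 2 μ}
    {ρ : Ω → Matrix (Fin m) (Fin m) ℂ} (hF : Fr μ C R θ M e ρ) :
    Rk μ C (M.map (Λ : Lp V 2 μ →ₗ[ℂ] Lp V 2 μ)) m := by
  intro k f hf hon
  choose h hhM hhf using hf
  -- coefficients
  set c : Fin k → Fin m → Ω → ℂ := fun i a =>
    μ[fun x => (inner ℂ (e a x) (h i x) : ℂ)|C] with hc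
  have hcs : ∀ i a, StronglyMeasurable[C] (c i a) := fun i a => stronglyMeasurable_condExp
  set A : ℕ → Set Ω := fun n => {x | ∀ i a, ‖c i a x‖ ≤ n} with hA
  have hAC : ∀ n, MeasurableSet[C] (A n) := by
    intro n
    have : A n = ⋂ i, ⋂ a, {x | ‖c i a x‖ ≤ n} := by
      ext x
      simp [hA]
    rw [this]
    refine @MeasurableSet.iInter _ _ C _ _ fun i => @MeasurableSet.iInter _ _ C _ _ fun a => ?_
    exact @Pool.Agent.Helper72.TWR.mle Ω C _ _ (hcs i a).norm.measurable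
      (@measurable_const _ _ _ C _)
  have hAA : ∀ n, AM μ C (ind (A n)) := fun n => am_ind μ (hAC n)
  -- the combinations
  have h1 : ∀ n i, ∀ᵐ x ∂μ, ind (A n) x • f i x =
      ∑ a, (ind (A n) x * c i a x) • (Λ (e a)) x := by
    intro n i
    have hib : ∃ B : ℝ, ∀ᵐ x ∂μ, ‖ind (A n) x‖ ≤ B :=
      ⟨1, Eventually.of_forall fun x => ind_le _ x⟩
    have hm := ml_smul hle (Lp.memLp (h i)) (hAA n) hib
    have e1 : ∀ᵐ x ∂μ, (hm.toLp : Lp V 2 μ) x = ∑ a, (ind (A n) x * c i a x) • e a x := by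
      filter_upwards [hm.coeFn_toLp, hF.span (h i) (hhM i)] with x hx hx2
      rw [hx, hx2, Finset.smul_sum]
      exact Finset.sum_congr rfl fun a _ => by rw [smul_smul]
    have e2 := clin hΛ hle e (fun a x => ind (A n) x * c i a x)
      (fun a => (hAA n).mul (hcs i a).aestronglyMeasurable) (fun a => ⟨n, ?_⟩) e1
    · have e3 := hΛ (ind (A n)) (h i) _ (hAA n) hib hm.coeFn_toLp
      filter_upwards [e2, e3] with x hx hx2
      rw [← hx, hx2, ← hhf i]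
      rfl
    · refine Eventually.of_forall fun x => ?_
      by_cases hx : x ∈ A n
      · rw [ind_of_mem hx, one_mul]
        exact hx i a
      · rw [ind_of_not hx, zero_mul, norm_zero]
        positivity
  -- the Gram matrices
  have h2 : ∀ n i j, ∀ᵐ x ∂μ, ind (A n) x * (if i = j then 1 else 0) =
      ∑ b, ∑ a, conj (ind (A n) x * c j b x) * (ind (A n) x * c i a x) *
        (μ[fun y => (inner ℂ ((Λ (e b)) y) ((Λ (e a)) y) : ℂ)|C]) x := by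
    intro n i j
    have hib : ∃ B : ℝ, ∀ᵐ x ∂μ, ‖ind (A n) x‖ ≤ B :=
      ⟨1, Eventually.of_forall fun x => ind_le _ x⟩
    have hcb : ∀ i a, ∃ B : ℝ, ∀ᵐ x ∂μ, ‖ind (A n) x * c i a x‖ ≤ B := fun i a => by
      refine ⟨n, Eventually.of_forall fun x => ?_⟩
      by_cases hx : x ∈ A n
      · rw [ind_of_mem hx, one_mul]
        exact hx i a
      · rw [ind_of_not hx, zero_mul, norm_zero]
        positivity
    have hcm : ∀ i a, AM μ C (fun x => ind (A n) x * c i a x) := fun i a =>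
      (hAA n).mul (hcs i a).aestronglyMeasurable
    have e1 := ce_inner hle (Lp.memLp (f j)) (Lp.memLp (f i)) (hAA n) (hAA n) hib hib
    have e2 : (fun x => (inner ℂ (ind (A n) x • f j x) (ind (A n) x • f i x) : ℂ)) =ᵐ[μ]
        ∑ b, ∑ a, fun x => (inner ℂ ((ind (A n) x * c j b x) • (Λ (e b)) x)
          ((ind (A n) x * c i a x) • (Λ (e a)) x) : ℂ) := by
      filter_upwards [h1 n i, h1 n j] with x hx hx2
      rw [hx, hx2]
      simp only [Finset.sum_apply, sum_inner, inner_sum]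
      exact Finset.sum_comm
    have hml : ∀ i a, MemLp (fun x => (ind (A n) x * c i a x) • (Λ (e a)) x) 2 μ := fun i a =>
      ml_smul hle (Lp.memLp (Λ (e a))) (hcm i a) (hcb i a)
    have hint : ∀ b a, Integrable (fun x => (inner ℂ ((ind (A n) x * c j b x) • (Λ (e b)) x)
          ((ind (A n) x * c i a x) • (Λ (e a)) x) : ℂ)) μ := fun b a =>
      int_inner (hml j b) (hml i a)
    have e3 := condExp_finsetSum (m := C) (μ := μ) (s := Finset.univ)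
      (f := fun b => ∑ a, fun x => (inner ℂ ((ind (A n) x * c j b x) • (Λ (e b)) x)
          ((ind (A n) x * c i a x) • (Λ (e a)) x) : ℂ))
      (fun b _ => integrable_finsetSum' _ fun a _ => hint b a)
    have e4 : ∀ b, μ[∑ a, fun x => (inner ℂ ((ind (A n) x * c j b x) • (Λ (e b)) x)
          ((ind (A n) x * c i a x) • (Λ (e a)) x) : ℂ)|C] =ᵐ[μ]
        ∑ a, μ[fun x => (inner ℂ ((ind (A n) x * c j b x) • (Λ (e b)) x)
          ((ind (A n) x * c i a x) • (Λ (e a)) x) : ℂ)|C] :=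
      fun b => condExp_finsetSum (fun a _ => hint b a) C
    have e5 : ∀ b a, μ[fun x => (inner ℂ ((ind (A n) x * c j b x) • (Λ (e b)) x)
          ((ind (A n) x * c i a x) • (Λ (e a)) x) : ℂ)|C] =ᵐ[μ] fun x =>
        conj (ind (A n) x * c j b x) * (ind (A n) x * c i a x) *
        (μ[fun y => (inner ℂ ((Λ (e b)) y) ((Λ (e a)) y) : ℂ)|C]) x := fun b a =>
      ce_inner hle (Lp.memLp (Λ (e b))) (Lp.memLp (Λ (e a))) (hcm j b) (hcm i a)
        (hcb j b) (hcb i a)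
    have e6 := condExp_congr_ae (m := C) e2
    filter_upwards [e1, e6, e3, ae_all_iff.2 e4, ae_all_iff.2 fun b => ae_all_iff.2 (e5 b),
      hon i j] with x hx1 hx6 hx3 hx4 hx5 hxon
    have hii : conj (ind (A n) x) * ind (A n) x = ind (A n) x := by
      by_cases hx : x ∈ A n
      · rw [ind_of_mem hx]; simp
      · rw [ind_of_not hx]; simp
    rw [hxon, hii] at hx1
    rw [← hx1, hx6, hx3, Finset.sum_apply]
    refine Finset.sum_congr rfl fun b _ => ?_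
    rw [hx4 b, Finset.sum_apply]
    exact Finset.sum_congr rfl fun a _ => hx5 b a
  -- a point
  have h3 : ∀ᵐ x ∂μ, ∀ n i j, ind (A n) x * (if i = j then 1 else 0) =
      ∑ b, ∑ a, conj (ind (A n) x * c j b x) * (ind (A n) x * c i a x) *
        (μ[fun y => (inner ℂ ((Λ (e b)) y) ((Λ (e a)) y) : ℂ)|C]) x :=
    ae_all_iff.2 fun n => ae_all_iff.2 fun i => ae_all_iff.2 fun j => h2 n i j
  obtain ⟨x, hx⟩ := h3.exists
  obtain ⟨n, hn⟩ := exists_nat_ge (∑ i, ∑ a, ‖c i a x‖)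
  have hxA : x ∈ A n := by
    intro i a
    have e1 : ‖c i a x‖ ≤ ∑ a, ‖c i a x‖ :=
      Finset.single_le_sum (f := fun a => ‖c i a x‖) (fun _ _ => norm_nonneg _)
        (Finset.mem_univ a)
    have e2 : ∑ a, ‖c i a x‖ ≤ ∑ i, ∑ a, ‖c i a x‖ :=
      Finset.single_le_sum (f := fun i => ∑ a, ‖c i a x‖)
        (fun _ _ => Finset.sum_nonneg fun _ _ => norm_nonneg _) (Finset.mem_univ i)
    linarith
  have h4 := hx n
  rw [ind_of_mem hxA] at h4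
  simp only [one_mul] at h4
  let P : Matrix (Fin k) (Fin m) ℂ := Matrix.of fun i a => c i a x
  let Γ : Matrix (Fin m) (Fin m) ℂ := Matrix.of fun a b =>
    (μ[fun y => (inner ℂ ((Λ (e b)) y) ((Λ (e a)) y) : ℂ)|C]) x
  have h5 : (1 : Matrix (Fin k) (Fin k) ℂ) = P * (Γ * P.conjTranspose) := by
    ext i j
    rw [Matrix.one_apply, h4 i j, Matrix.mul_apply, Finset.sum_comm]
    refine Finset.sum_congr rfl fun a _ => ?_
    rw [Matrix.mul_apply, Finset.mul_sum]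
    refine Finset.sum_congr rfl fun b _ => ?_
    simp only [P, Γ, Matrix.conjTranspose_apply, Matrix.of_apply, RCLike.star_def]
    ring
  have h6 : (1 : Matrix (Fin k) (Fin k) ℂ).rank ≤ m := by
    rw [h5]
    exact (Matrix.rank_mul_le_left _ _).trans (Matrix.rank_le_width P)
  rwa [Matrix.rank_one, Fintype.card_fin] at h6

/-- the operator as a linear isometry -/
theorem exists_WL [IsProbabilityMeasure μ] {S : Ω → Ω} {θ : Ω → V →L[ℂ] V}
    (hS : MeasurePreserving S μ μ) (hθ : Th μ θ) :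
    ∃ W : Lp V 2 μ →ₗᵢ[ℂ] Lp V 2 μ, ∀ G : Lp V 2 μ, ∀ᵐ x ∂μ, (W G) x = θ x (G (S x)) := by
  choose W hW using fun G : Lp V 2 μ => exists_W hS hθ G
  have hadd : ∀ G H, W (G + H) = W G + W H := by
    intro G H
    refine Lp.ext ?_
    have e1 := hS.quasiMeasurePreserving.ae (Lp.coeFn_add G H)
    filter_upwards [hW G, hW H, hW (G + H), Lp.coeFn_add (W G) (W H), e1] with x h1 h2 h0 h3 h4
    rw [h0, h3, Pi.add_apply, h1, h2, h4, Pi.add_apply, map_add]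
  have hsmul : ∀ (l : ℂ) (G : Lp V 2 μ), W (l • G) = l • W G := by
    intro l G
    refine Lp.ext ?_
    have e1 := hS.quasiMeasurePreserving.ae (Lp.coeFn_smul l G)
    filter_upwards [hW G, hW (l • G), Lp.coeFn_smul l (W G), e1] with x h1 h0 h3 h4
    rw [h0, h3, Pi.smul_apply, h1, h4, Pi.smul_apply, map_smul]
  have hnorm : ∀ G, ‖W G‖ = ‖G‖ := by
    intro G
    have e1 := inner_W hS hθ (hW G) (hW G)
    rw [inner_self_eq_norm_sq_to_K, inner_self_eq_norm_sq_to_K] at e1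
    have e2 : ((‖W G‖ ^ 2 : ℝ) : ℂ) = ((‖G‖ ^ 2 : ℝ) : ℂ) := by
      push_cast
      exact e1
    exact (sq_eq_sq₀ (norm_nonneg _) (norm_nonneg _)).1 (Complex.ofReal_injective e2)
  exact ⟨⟨⟨⟨W, hadd⟩, hsmul⟩, hnorm⟩, hW⟩

theorem iso_star [FiniteDimensional ℂ V] [CompleteSpace V] {u : V →L[ℂ] V}
    (hu : ∀ v, ‖u v‖ = ‖v‖) (v : V) : u (star u v) = v ∧ ‖star u v‖ = ‖v‖ := by
  have h1 : Function.Injective (u : V →ₗ[ℂ] V) := by
    intro a b hab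
    have h2 : ‖u (a - b)‖ = 0 := by
      rw [map_sub]
      have : u a = u b := hab
      rw [this, sub_self, norm_zero]
    rw [hu] at h2
    exact sub_eq_zero.1 (norm_eq_zero.1 h2)
  obtain ⟨w, hw⟩ := (LinearMap.injective_iff_surjective.1 h1) v
  have hw' : u w = v := hw
  have h3 : star u v = w := by
    rw [← hw', ContinuousLinearMap.star_eq_adjoint]
    exact ContinuousLinearMap.ext_iff.1 ((u.norm_map_iff_adjoint_comp_self).1 hu) w
  rw [h3]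
  exact ⟨hw', by rw [← hw', hu]⟩

theorem surj_W [IsProbabilityMeasure μ] [FiniteDimensional ℂ V] [CompleteSpace V] {S S' : Ω → Ω}
    {θ : Ω → V →L[ℂ] V} (hS : Sys μ S S') (hθ : Th μ θ) (W : Lp V 2 μ →ₗᵢ[ℂ] Lp V 2 μ)
    (hW : ∀ G : Lp V 2 μ, ∀ᵐ x ∂μ, (W G) x = θ x (G (S x))) (z : Lp V 2 μ) :
    ∃ z', W z' = z := by
  have h1 : Th μ (fun x => star (θ (S' x))) :=
    ⟨(continuous_star.comp_aestronglyMeasurable hθ.ms).comp_measurePreserving hS.mp',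
      fun x v => (iso_star (hθ.iso (S' x)) v).2⟩
  obtain ⟨g, hg⟩ := exists_W hS.mp' h1 z
  refine ⟨g, Lp.ext ?_⟩
  have e1 := hS.mp.quasiMeasurePreserving.ae hg
  filter_upwards [hW g, e1, hS.l] with x h2 h3 h4
  rw [h2, h3, h4, (iso_star (hθ.iso x) (z x)).1]

/-- the linear algebra -/
theorem hil2 {H : Type*} [NormedAddCommGroup H] [InnerProductSpace ℂ H] (Ψ : H →L[ℂ] H) (l : ℂ)
    (M : Submodule ℂ H) (W : H →ₗᵢ[ℂ] H) (hs : ∀ z, ∃ z', W z' = z)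
    (h1 : ∀ z ∈ M, W z ∈ M) (h2 : ∀ z, W z ∈ M → z ∈ M)
    (h3 : ∀ f ∈ M, ∀ g ∈ M, (inner ℂ g (Ψ f - l • f) : ℂ) = 0)
    (h4 : ∀ f ∈ M, ∃ f' ∈ M, W (f + (Ψ f - l • f)) = f' + (Ψ f' - l • f')) :
    ∀ f ∈ M, Ψ (W f) = W (Ψ f) := by
  intro f hf
  obtain ⟨f', hf', h5⟩ := h4 f hf
  rw [map_add] at h5
  have h6 : W f - f' = (Ψ f' - l • f') - W (Ψ f - l • f) := by
    rw [sub_eq_sub_iff_add_eq_add, h5]
    abel
  have hz : W f - f' ∈ M := M.sub_mem (h1 f hf) hf'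
  obtain ⟨z', hz'⟩ := hs (W f - f')
  have hz'M : z' ∈ M := h2 z' (by rw [hz']; exact hz)
  have h7 : (inner ℂ (W f - f') (W f - f') : ℂ) = 0 := by
    have e1 : (inner ℂ (W f - f') ((Ψ f' - l • f') - W (Ψ f - l • f)) : ℂ) = 0 := by
      rw [inner_sub_right, h3 f' hf' _ hz, ← hz', W.inner_map_map, h3 f hf z' hz'M, sub_zero]
    rwa [← h6] at e1
  have h8 : W f = f' := sub_eq_zero.1 (inner_self_eq_zero.1 h7)
  rw [h8, sub_self] at h6
  have h9 : Ψ f' - l • f' = W (Ψ f - l • f) := sub_eq_zero.1 h6.symm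
  rw [map_sub, map_smul, h8, sub_left_inj] at h9
  rw [h8, h9]

/-- one minimal module -/
theorem one_min [IsProbabilityMeasure μ] [FiniteDimensional ℂ V] [CompleteSpace V]
    (hMIV : ST_MIV) (hMIR : ST_MIR) {S S' : Ω → Ω} {θ : Ω → V →L[ℂ] V} {C : SA Ω} {p q R₀ : ℕ}
    {Ψ : Lp V 2 μ →L[ℂ] Lp V 2 μ} {M : Submodule ℂ (Lp V 2 μ)} {m : ℕ}
    {e : Fin m → Lp V 2 μ} {ρ : Ω → Matrix (Fin m) (Fin m) ℂ} (hSt : St μ S S') (hθ : Th μ θ)
    (hp : p.Prime) (hq : q.Prime) (hpq : p ≠ q) (hR : R₀ ^ 2 < q) (hQ : HQ μ S S' p q R₀ C)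
    (hZ : Zp μ S θ p) (hMi : Mi μ C S^[p] (tp S θ p) M) (hmR : m ≤ R₀)
    (hrk : Rk μ C M m) (hF : Fr μ C S^[p] (tp S θ p) M e ρ)
    (hΨ : Cq μ C S^[p] (tp S θ p) Ψ) (W : Lp V 2 μ →ₗᵢ[ℂ] Lp V 2 μ)
    (hW : ∀ G : Lp V 2 μ, ∀ᵐ x ∂μ, (W G) x = θ x (G (S x)))
    (hWs : ∀ z, ∃ z', W z' = z) : ∀ f ∈ M, Ψ (W f) = W (Ψ f) := by
  have hS : Sys μ S S' := by simpa using hSt.sys 1
  have hT : Sys μ S^[p] S'^[p] := hSt.sys p
  have hE : Ergodic S^[p] μ := hSt.erg p hp.one_lt.le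
  have hIA : IA μ C S S' := hQ.ia
  have hle : Lm C := hIA.1
  have hIAp : IA μ C S^[p] S'^[p] := hIA.iterate p
  have hθp : Th μ (tp S θ p) := th_tp hS.mp hθ p
  -- the scalar
  have h1 := alpha_eq hT hIAp hθp hF hΨ
  obtain ⟨l, hl⟩ := hMIR Ω μ V S^[p] S'^[p] (tp S θ p) C M m e ρ hT hE hIAp hMi hF
    (fun x => Matrix.of fun a b => (μ[fun y => (inner ℂ (e b y) ((Ψ (e a)) y) : ℂ)|C]) x)
    (fun a b => stronglyMeasurable_condExp.aestronglyMeasurable) h1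
  set κ : Lp V 2 μ →L[ℂ] Lp V 2 μ := (-l) • (1 : Lp V 2 μ →L[ℂ] Lp V 2 μ) + Ψ with hκ
  have hκa : ∀ f, κ f = Ψ f - l • f := by
    intro f
    have e1 : κ f = (-l) • f + Ψ f := rfl
    rw [e1, neg_smul]
    abel
  have hκC : CL μ C κ := CL.add_smul hΨ.c (-l)
  -- the complement
  have htop : CM μ C S^[p] (tp S θ p) (⊤ : Submodule ℂ (Lp V 2 μ)) :=
    ⟨⟨isClosed_univ, fun _ _ _ _ _ _ _ => trivial⟩, fun _ _ _ _ => trivial⟩
  have hX := cpl_cm hT hIAp hθp.ms hθp.iso htop hF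
  have hκe : ∀ a, κ (e a) ∈ cpl C (⊤ : Submodule ℂ (Lp V 2 μ)) e := by
    intro a
    refine mem_cpl.2 ⟨trivial, fun b => ?_⟩
    have e1 : (fun x => (inner ℂ (e b x) ((κ (e a)) x) : ℂ)) =ᵐ[μ]
        (fun x => (inner ℂ (e b x) ((Ψ (e a)) x) : ℂ)) -
          (l • fun x => (inner ℂ (e b x) (e a x) : ℂ)) := by
      rw [hκa]
      filter_upwards [Lp.coeFn_sub (Ψ (e a)) (l • e a), Lp.coeFn_smul l (e a)] with x hx hx2
      rw [hx, Pi.sub_apply, hx2, Pi.smul_apply, inner_sub_right, inner_smul_right]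
      rfl
    have hi1 : Integrable (fun x => (inner ℂ (e b x) ((Ψ (e a)) x) : ℂ)) μ :=
      int_inner (Lp.memLp _) (Lp.memLp _)
    have hi2 : Integrable (fun x => (inner ℂ (e b x) (e a x) : ℂ)) μ :=
      int_inner (Lp.memLp _) (Lp.memLp _)
    have e2 := condExp_sub (m := C) hi1 (hi2.smul l)
    have e3 := condExp_smul (μ := μ) l (fun x => (inner ℂ (e b x) (e a x) : ℂ)) C
    filter_upwards [condExp_congr_ae (m := C) e1, e2, e3, hl, hF.on a b] with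
      x hx1 hx2 hx3 hx4 hx5
    have e4 := congrFun (congrFun hx4 a) b
    simp only [Matrix.of_apply, Matrix.smul_apply, Matrix.one_apply] at e4
    rw [hx1, hx2, Pi.sub_apply, hx3, Pi.smul_apply, hx5, e4, sub_self, Pi.zero_apply]
  have hκM : ∀ f ∈ M, κ f ∈ cpl C (⊤ : Submodule ℂ (Lp V 2 μ)) e :=
    fr_le hle hF (comap_c0 hκC hX.toC0) hκe
  have horth : M ≤ (cpl C (⊤ : Submodule ℂ (Lp V 2 μ)) e)ᗮ := by
    refine fr_le hle hF (orth_c0 hle hX.toC0) fun b => ?_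
    rw [Submodule.mem_orthogonal']
    intro h hh
    have : IsFiniteMeasure (μ.trim hle) := isFiniteMeasure_trim hle
    have : SigmaFinite (μ.trim hle) := IsFiniteMeasure.toSigmaFinite _
    rw [L2.inner_def, ← integral_condExp hle]
    have e1 := (mem_cpl.1 hh).2 b
    rw [integral_congr_ae e1]
    simp
  have hor : ∀ f ∈ M, ∀ g ∈ M, (inner ℂ g (Ψ f - l • f) : ℂ) = 0 := by
    intro f hf g hg
    rw [← hκa]
    exact (Submodule.mem_orthogonal' _ g).1 (horth hg) _ (hκM f hf)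
  -- the second module
  set Λ : Lp V 2 μ →L[ℂ] Lp V 2 μ := (1 - l) • (1 : Lp V 2 μ →L[ℂ] Lp V 2 μ) + Ψ with hΛ
  have hΛa : ∀ f, Λ f = f + (Ψ f - l • f) := by
    intro f
    have e1 : Λ f = (1 - l) • f + Ψ f := rfl
    rw [e1, sub_smul, one_smul]
    abel
  have hΛC : CL μ C Λ := CL.add_smul hΨ.c (1 - l)
  have hΛn : ∀ f ∈ M, ‖f‖ ≤ ‖Λ f‖ := by
    intro f hf
    have e1 := norm_add_sq_eq_norm_sq_add_norm_sq_of_inner_eq_zero f (Ψ f - l • f)
      (hor f hf f hf)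
    rw [← hΛa] at e1
    have := mul_self_nonneg ‖Ψ f - l • f‖
    exact le_of_sq_le_sq (by nlinarith) (norm_nonneg _)
  have hM1 : CM μ C S^[p] (tp S θ p) (M.map (Λ : Lp V 2 μ →ₗ[ℂ] Lp V 2 μ)) := by
    refine ⟨⟨?_, ?_⟩, ?_⟩
    · have : CompleteSpace M := hMi.1.closed.completeSpace_coe
      have e1 : AntilipschitzWith 1 (fun f : M => Λ (f : Lp V 2 μ)) := by
        refine AntilipschitzWith.of_le_mul_dist fun f g => ?_
        rw [NNReal.coe_one, one_mul, dist_eq_norm, dist_eq_norm, ← map_sub]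
        exact hΛn _ (M.sub_mem f.2 g.2)
      have e2 : UniformContinuous (fun f : M => Λ (f : Lp V 2 μ)) :=
        Λ.uniformContinuous.comp uniformContinuous_subtype_val
      have e3 := e1.isClosed_range e2
      have e4 : ((M.map (Λ : Lp V 2 μ →ₗ[ℂ] Lp V 2 μ) : Submodule ℂ (Lp V 2 μ)) :
          Set (Lp V 2 μ)) = Set.range (fun f : M => Λ (f : Lp V 2 μ)) := by
        ext y
        constructor
        · rintro ⟨f, hf, rfl⟩
          exact ⟨⟨f, hf⟩, rfl⟩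
        · rintro ⟨f, rfl⟩
          exact ⟨f, f.2, rfl⟩
      rw [e4]
      exact e3
    · rintro G ⟨f, hf, rfl⟩ c hc hcb G' hG'
      have hm := ml_smul hle (Lp.memLp f) hc hcb
      refine ⟨hm.toLp, hMi.1.mul f hf c hc hcb _ hm.coeFn_toLp, ?_⟩
      refine Lp.ext ?_
      filter_upwards [hΛC c f _ hc hcb hm.coeFn_toLp, hG'] with x hx hx2
      rw [hx2]
      exact hx
    · rintro G ⟨f, hf, rfl⟩ G' hG'
      obtain ⟨Wf, hWf⟩ := exists_W hT.mp hθp f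
      refine ⟨Wf, hMi.1.comp f hf Wf hWf, ?_⟩
      have e0 : ∀ F : Lp V 2 μ, ∀ᵐ x ∂μ, (Λ F) x = (1 - l) • F x + (Ψ F) x := by
        intro F
        have e1 : Λ F = (1 - l) • F + Ψ F := rfl
        rw [e1]
        filter_upwards [Lp.coeFn_add ((1 - l) • F) (Ψ F), Lp.coeFn_smul (1 - l) F] with x hx hx2
        rw [hx, Pi.add_apply, hx2, Pi.smul_apply]
      refine Lp.ext ?_
      filter_upwards [hΨ.w f Wf hWf, hG', e0 Wf, hT.mp.quasiMeasurePreserving.ae (e0 f), hWf] with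
        x hx1 hx2 hx3 hx4 hx5
      rw [hx2]
      change (Λ Wf) x = tp S θ p x ((Λ f) (S^[p] x))
      rw [hx3, hx4, map_add, map_smul, hx1, hx5]
  have hrk1 : Rk μ C (M.map (Λ : Lp V 2 μ →ₗ[ℂ] Lp V 2 μ)) R₀ := fun k f hf hon =>
    (map_rk hle hΛC hF k f hf hon).trans hmR
  have hrkM : Rk μ C M R₀ := fun k f hf hon => (hrk k f hf hon).trans hmR
  obtain ⟨hM1S, -⟩ := hMIV Ω μ V S S' θ C p q R₀ _ hSt hθ hp hq hpq hR hQ hZ hM1 hrk1
  obtain ⟨hMS, hMb⟩ := hMIV Ω μ V S S' θ C p q R₀ _ hSt hθ hp hq hpq hR hQ hZ hMi.1 hrkM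
  refine hil2 Ψ l M W hWs (fun z hz => hMS.comp z hz _ (hW z))
    (fun z hz => hMb (W z) z hz (hW z)) hor fun f hf => ?_
  have e1 : Λ f ∈ M.map (Λ : Lp V 2 μ →ₗ[ℂ] Lp V 2 μ) := ⟨f, hf, rfl⟩
  obtain ⟨f', hf', h5⟩ := hM1S.comp _ e1 _ (hW (Λ f))
  refine ⟨f', hf', ?_⟩
  rw [← hΛa, ← hΛa]
  exact h5.symm

/-- MCM -/
theorem st_MCM (hMDC : ST_MDC) (hMIV : ST_MIV) (hMIR : ST_MIR) : ST_MCM := by
  intro Ω m0 μ _ V _ _ _ _ S S' θ C p q R₀ K Ψ hSt hθ hp hq hpq hR hQ hZ hK hrk hΨ G G' hG hG'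
  have hS : Sys μ S S' := by simpa using hSt.sys 1
  have hT : Sys μ S^[p] S'^[p] := hSt.sys p
  have hE : Ergodic S^[p] μ := hSt.erg p hp.one_lt.le
  have hIAp : IA μ C S^[p] S'^[p] := hQ.ia.iterate p
  have hθp : Th μ (tp S θ p) := th_tp hS.mp hθ p
  obtain ⟨W, hW⟩ := exists_WL hS.mp hθ
  have hWs : ∀ z, ∃ z', W z' = z := surj_W hS hθ W hW
  obtain ⟨k, h, hsum, hh⟩ := hMDC Ω μ V S^[p] S'^[p] (tp S θ p) C K R₀ hT hE hIAp hθp hK hrk G hG
  have h1 : ∀ i, Ψ (W (h i)) = W (Ψ (h i)) := by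
    intro i
    obtain ⟨M, m, e, ρ, h1, -, h3, -, h5, h6, h7⟩ := hh i
    exact one_min hMIV hMIR hSt hθ hp hq hpq hR hQ hZ h3 h5 h6 h7 hΨ W hW hWs (h i) h1
  have h2 : Ψ (W G) = W (Ψ G) := by
    rw [hsum, map_sum, map_sum, map_sum, map_sum]
    exact Finset.sum_congr rfl fun i _ => h1 i
  have h3 : G' = W G := by
    refine Lp.ext ?_
    filter_upwards [hG', hW G] with x hx hx2
    rw [hx, hx2]
  rw [h3, h2]
  exact hW (Ψ G)

end Pool.Agent.Helper74.TWM
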